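import Pool.Agent.H15.G.R_seed8.TH176.Nag.Order
open Finset Pool.Agent.TH176.Nag

namespace Pool.Agent.TH543.NagJ

section seq
variable {Ω : Type*} [Field Ω]

/-- the sequence `u_(k+2) = (1 + u_(k+1) ^ N) / u_k` -/
noncomputable def useq (N : ℕ) (x y : Ω) : ℕ → Ω
  | 0 => x
  | 1 => y
  | (k + 2) => (1 + useq N x y (k + 1) ^ N) / useq N x y k

/-- the quadruple at place `k` -/
noncomputable def Qd (N : ℕ) (x y : Ω) (k : ℕ) : Ω × Ω × Ω × Ω :=
  zK N (useq N x y k) (useq N x y (k + 1))

theorem stp_Qd {N : ℕ} (hN : 1 ≤ N) {x y : Ω} (h : ∀ k, useq N x y k ≠ 0) (k : ℕ) :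
    stp N (Qd N x y (k + 1)) = Qd N x y k := by
  have h0 := h k
  have h1 := h (k + 1)
  have h2 := h (k + 2)
  have e2 : useq N x y (k + 2) = (1 + useq N x y (k + 1) ^ N) / useq N x y k := rfl
  have hrel := (zK_rel N h1 h2).stp hN
  have hw : (1 + useq N x y (k + 1) ^ N) / useq N x y (k + 2) = useq N x y k := by
    have h3 : 1 + useq N x y (k + 1) ^ N ≠ 0 := by
      intro h4
      rw [e2, h4, zero_div] at h2
      exact h2 rfl
    rw [e2]
    field_simp
  have hfst : (stp N (Qd N x y (k + 1))).1 = (1 + useq N x y k ^ N) / useq N x y (k + 1) := by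
    have h5 := hrel.1
    unfold Qd
    simp only [zK, stp] at h5 ⊢
    rw [hw] at h5 ⊢
    rw [eq_div_iff h1]
    exact h5
  ext
  · exact hfst
  · show (1 + useq N x y (k + 1) ^ N) / useq N x y (k + 1 + 1) = useq N x y k
    exact hw
  · rfl
  · show useq N x y (k + 2) = (1 + useq N x y (k + 1) ^ N) / useq N x y k
    exact e2

theorem iter_Qd {N : ℕ} (hN : 1 ≤ N) {x y : Ω} (h : ∀ k, useq N x y k ≠ 0) (t : ℕ) :
    (stp N)^[t] (Qd N x y t) = Qd N x y 0 := by
  induction t with
  | zero => rfl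
  | succ t ih => rw [Function.iterate_succ_apply, stp_Qd hN h, ih]

end seq

theorem gs_pos {N : ℕ} (hN : 3 ≤ N) (k : ℕ) : 1 ≤ gs N k ∧ gs N k ≤ gs N (k + 1) := by
  induction k with
  | zero => simp [gs]
  | succ k ih =>
    have e : gs N (k + 2) = N * gs N (k + 1) - gs N k := rfl
    have hN' : (3 : ℤ) ≤ N := by exact_mod_cast hN
    refine ⟨by linarith [ih.1, ih.2], ?_⟩
    rw [show k + 1 + 1 = k + 2 from rfl, e]
    nlinarith [ih.1, ih.2]

theorem useq_order {E : Type*} [Field E] {N : ℕ} (hN : 3 ≤ N) {x y : HahnSeries ℤ E}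
    (hx : x ≠ 0) (hy : y ≠ 0) (ox : x.order = -1) (oy : y.order = -1) (k : ℕ) :
    (useq N x y k ≠ 0 ∧ (useq N x y k).order = -gs N k) ∧
      (useq N x y (k + 1) ≠ 0 ∧ (useq N x y (k + 1)).order = -gs N (k + 1)) := by
  induction k with
  | zero => exact ⟨⟨hx, by rw [show useq N x y 0 = x from rfl, ox]; rfl⟩,
      ⟨hy, by rw [show useq N x y (0 + 1) = y from rfl, oy]; rfl⟩⟩
  | succ k ih =>
    refine ⟨ih.2, ?_⟩
    obtain ⟨⟨h0, o0⟩, ⟨h1, o1⟩⟩ := ih
    have hg := gs_pos hN k
    have hg' := gs_pos hN (k + 1)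
    have o2 : (useq N x y (k + 1) ^ N).order = N * (useq N x y (k + 1)).order := by
      rw [HahnSeries.order_pow]; simp
    have hlt : (useq N x y (k + 1) ^ N).order < 0 := by
      rw [o2, o1]
      have hN' : (3 : ℤ) ≤ N := by exact_mod_cast hN
      nlinarith [hg'.1]
    obtain ⟨h3, h4⟩ := order_one_add (pow_ne_zero N h1) hlt
    have e2 : useq N x y (k + 1 + 1) = (1 + useq N x y (k + 1) ^ N) / useq N x y k := rfl
    have h5 : useq N x y (k + 1 + 1) ≠ 0 := by
      rw [e2]; exact div_ne_zero h3 h0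
    refine ⟨h5, ?_⟩
    have h6 : (useq N x y (k + 1 + 1) * useq N x y k).order =
        (1 + useq N x y (k + 1) ^ N).order := by
      rw [e2, div_mul_cancel₀ _ h0]
    rw [HahnSeries.order_mul h5 h0, h4, o2, o1, o0] at h6
    have e : gs N (k + 1 + 1) = N * gs N (k + 1) - gs N k := rfl
    rw [e]
    linarith


/-- the monoid homomorphism `m ↦ p ^ m.1 * q ^ m.2` -/
noncomputable def mhom {Ω : Type*} [Field Ω] (p q : Ω) (hp : p ≠ 0) (hq : q ≠ 0) :
    Multiplicative (ℤ × ℤ) →* Ω where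
  toFun m := p ^ (Multiplicative.toAdd m).1 * q ^ (Multiplicative.toAdd m).2
  map_one' := by simp
  map_mul' a b := by
    simp only [toAdd_mul, Prod.fst_add, Prod.snd_add]
    rw [zpow_add₀ hp, zpow_add₀ hq]
    ring

/-- evaluation of Laurent polynomials -/
noncomputable def evL {K Ω : Type*} [Field K] [Field Ω] [Algebra K Ω] (p q : Ω) (hp : p ≠ 0)
    (hq : q ≠ 0) : Lau K →ₐ[K] Ω := AddMonoidAlgebra.lift K Ω (ℤ × ℤ) (mhom p q hp hq)

theorem evL_mon {K Ω : Type*} [Field K] [Field Ω] [Algebra K Ω] (p q : Ω) (hp : p ≠ 0)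
    (hq : q ≠ 0) (m : ℤ × ℤ) : evL (K := K) p q hp hq (mon K m) = p ^ m.1 * q ^ m.2 := by
  unfold evL mon
  rw [AddMonoidAlgebra.lift_single, one_smul]
  rfl

/-- transcendence: a polynomial over `E` vanishing at `C a * T ^ N + C b` is zero -/
theorem trans_q {E : Type*} [Field E] {N : ℕ} (hN : 1 ≤ N) (a b : E) (ha : a ≠ 0)
    (A : Polynomial E)
    (hA : A.eval₂ (HahnSeries.C : E →+* HahnSeries ℤ E)
      (HahnSeries.C a * (HahnSeries.single (1 : ℤ) (1 : E)) ^ N + HahnSeries.C b) = 0) : A = 0 := by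
  have h1 : ∀ B : Polynomial E, B.eval₂ (HahnSeries.C : E →+* HahnSeries ℤ E)
      (HahnSeries.single (1 : ℤ) (1 : E)) = 0 → B = 0 := by
    intro B hB
    have h2 : ∀ B : Polynomial E, B.eval₂ (HahnSeries.C : E →+* HahnSeries ℤ E)
      (HahnSeries.single (1 : ℤ) (1 : E)) = HahnSeries.ofPowerSeries ℤ E (B : PowerSeries E) := by
      intro B
      induction B using Polynomial.induction_on' with
      | add p q hp hq => rw [Polynomial.eval₂_add, hp, hq, Polynomial.coe_add, map_add]
      | monomial n c =>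
        rw [Polynomial.eval₂_monomial, ← Polynomial.C_mul_X_pow_eq_monomial, Polynomial.coe_mul,
          Polynomial.coe_pow, Polynomial.coe_C, Polynomial.coe_X, map_mul, map_pow,
          HahnSeries.ofPowerSeries_C, HahnSeries.ofPowerSeries_X]
    rw [h2] at hB
    have h3 := HahnSeries.ofPowerSeries_injective (Γ := ℤ) (R := E)
      (hB.trans (map_zero _).symm)
    exact Polynomial.coe_injective E (by rw [h3, Polynomial.coe_zero])
  set g : Polynomial E := Polynomial.C a * Polynomial.X ^ N + Polynomial.C b with hg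
  have h4 : (A.comp g) = 0 := by
    apply h1
    have h5 : g.eval₂ (HahnSeries.C : E →+* HahnSeries ℤ E) (HahnSeries.single (1 : ℤ) (1 : E)) =
        HahnSeries.C a * (HahnSeries.single (1 : ℤ) (1 : E)) ^ N + HahnSeries.C b := by
      rw [hg]
      simp only [Polynomial.eval₂_add, Polynomial.eval₂_mul, Polynomial.eval₂_C,
        Polynomial.eval₂_X_pow]
    rw [Polynomial.eval₂_comp, h5]
    exact hA
  rw [Polynomial.comp_eq_zero_iff] at h4
  rcases h4 with h4 | ⟨_, h4⟩
  · exact h4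
  · exfalso
    have h5 : g.coeff N = 0 := by
      rw [h4, Polynomial.coeff_C, if_neg (by omega)]
    rw [hg] at h5
    simp only [Polynomial.coeff_add, Polynomial.coeff_C_mul, Polynomial.coeff_X_pow, if_true,
      mul_one, Polynomial.coeff_C] at h5
    rw [if_neg (by omega), add_zero] at h5
    exact ha h5

theorem comp_inj {K : Type*} [Field K] [CharZero K] {N : ℕ} (hN : 3 ≤ N) (t : ℕ) {e : ℕ}
    {f : (ℤ × ℤ) →₀ K} (hsup : ∀ m ∈ f.support, 0 ≤ m.1 ∧ 0 ≤ m.2 ∧ m.1 + ((N - 2 : ℕ) : ℤ) * m.2 ≤ e)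
    (hf : (f.sum fun m c => c • (s0 N t (zL K N) ^ (e - m.1.toNat - (N - 2) * m.2.toNat) *
      s1 N t (zL K N) ^ m.1.toNat * s2 N t (zL K N) ^ m.2.toNat)) = 0) : f = 0 := by
  classical
  let E := RatFunc K
  let Ω := HahnSeries ℤ E
  letI algI : Algebra K Ω :=
    RingHom.toAlgebra ((HahnSeries.C : E →+* HahnSeries ℤ E).comp (algebraMap K E))
  set β : E := RatFunc.X with hβ
  have hβ0 : β ≠ 0 := RatFunc.X_ne_zero
  set x : Ω := HahnSeries.single (-1 : ℤ) (1 : E) with hx
  set y : Ω := HahnSeries.single (-1 : ℤ) β with hy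
  set T : Ω := HahnSeries.single (1 : ℤ) (1 : E) with hT
  have hx0 : x ≠ 0 := by rw [hx]; exact HahnSeries.single_ne_zero one_ne_zero
  have hy0 : y ≠ 0 := by rw [hy]; exact HahnSeries.single_ne_zero hβ0
  have ox : x.order = -1 := by rw [hx]; exact HahnSeries.order_single one_ne_zero
  have oy : y.order = -1 := by rw [hy]; exact HahnSeries.order_single hβ0
  have hu : ∀ k, useq N x y k ≠ 0 := fun k => (useq_order hN hx0 hy0 ox oy k).1.1
  have hxT : x * T = 1 := by
    rw [hx, hT, HahnSeries.single_mul_single]; simp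
  have hyx : y = HahnSeries.C β * x := by
    rw [hx, hy, HahnSeries.C_apply, HahnSeries.single_mul_single]; simp
  let φ : Lau K →ₐ[K] Ω := evL (useq N x y t) (useq N x y (t + 1)) (hu t) (hu (t + 1))
  have hφ : ∀ m, φ (mon K m) = useq N x y t ^ m.1 * useq N x y (t + 1) ^ m.2 :=
    fun m => evL_mon _ _ _ _ m
  have hz : (φ (zL K N).1, φ (zL K N).2.1, φ (zL K N).2.2.1, φ (zL K N).2.2.2) = Qd N x y t := by
    unfold zL Qd zK
    simp only [map_mul, map_add, map_one, hφ]
    ext <;> simp [div_eq_mul_inv, mul_comm]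
  have hs0 : φ (s0 N t (zL K N)) = x := by
    have := map_s0 (φ : Lau K →+* Ω) N t (zL K N)
    simp only [AlgHom.coe_toRingHom] at this
    rw [← this]
    show s0 N t (φ (zL K N).1, φ (zL K N).2.1, φ (zL K N).2.2.1, φ (zL K N).2.2.2) = x
    rw [hz]
    unfold s0
    rw [iter_Qd (by omega) hu]
    rfl
  have hs1 : φ (s1 N t (zL K N)) = y := by
    have := map_s1 (φ : Lau K →+* Ω) N t (zL K N)
    simp only [AlgHom.coe_toRingHom] at this
    rw [← this]
    show s1 N t (φ (zL K N).1, φ (zL K N).2.1, φ (zL K N).2.2.1, φ (zL K N).2.2.2) = y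
    rw [hz]
    unfold s1
    rw [iter_Qd (by omega) hu]
    rfl
  have hs2 : x * y * φ (s2 N t (zL K N)) = 1 + x ^ N + y ^ N := by
    have h1 := congrArg φ ((zL_rel K N).s012 (by omega) t)
    simp only [map_mul, map_add, map_one, map_pow, hs0, hs1] at h1
    exact h1
  -- the second generator
  set q : Ω := HahnSeries.C β⁻¹ * T ^ N + HahnSeries.C ((1 + β ^ N) / β) with hq
  have hs2' : φ (s2 N t (zL K N)) = q * x ^ (N - 2) := by
    apply mul_left_cancel₀ (mul_ne_zero hx0 hy0)
    rw [hs2, hq, hyx]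
    obtain ⟨M, rfl⟩ : ∃ M, N = M + 2 := ⟨N - 2, by omega⟩
    have hc : (HahnSeries.C β : Ω) * HahnSeries.C β⁻¹ = 1 := by
      rw [← map_mul, mul_inv_cancel₀ hβ0, map_one]
    have hc2 : (HahnSeries.C β : Ω) * HahnSeries.C ((1 + β ^ (M + 2)) / β) =
        1 + HahnSeries.C β ^ (M + 2) := by
      rw [← map_mul, mul_div_cancel₀ _ hβ0, map_add, map_one, map_pow]
    have hTx : T ^ (M + 2) * x ^ (M + 2) = 1 := by rw [← mul_pow, mul_comm, hxT, one_pow]
    simp only [Nat.add_sub_cancel]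
    have e1 : x * (HahnSeries.C β * x) * ((HahnSeries.C β⁻¹ * T ^ (M + 2) +
        HahnSeries.C ((1 + β ^ (M + 2)) / β)) * x ^ M) =
        (HahnSeries.C β * HahnSeries.C β⁻¹) * (T ^ (M + 2) * x ^ (M + 2)) +
        (HahnSeries.C β * HahnSeries.C ((1 + β ^ (M + 2)) / β)) * x ^ (M + 2) := by ring
    rw [e1, hc, hc2, hTx]
    ring
  -- the double polynomial
  set P : Polynomial (Polynomial K) :=
    f.sum fun m c => Polynomial.monomial m.2.toNat (Polynomial.monomial m.1.toNat c) with hP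
  have hPhom : (P.eval₂ ((HahnSeries.C : E →+* Ω).comp (algebraMap (Polynomial K) E)) q) = 0 := by
    have h1 := congrArg φ hf
    rw [map_zero, Finsupp.sum, map_sum] at h1
    have h2 : x ^ e * (P.eval₂ ((HahnSeries.C : E →+* Ω).comp (algebraMap (Polynomial K) E)) q)
        = 0 := by
      rw [← h1, hP, Finsupp.sum, Polynomial.eval₂_finsetSum, mul_sum]
      apply sum_congr rfl
      intro m hm
      obtain ⟨h3, h4, h5⟩ := hsup m hm
      have hsm : ∀ (c : K) (g : Lau K), φ (c • g) = algebraMap K Ω c * φ g := by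
        intro c g
        rw [Algebra.smul_def, map_mul, AlgHom.commutes]
      rw [hsm, map_mul, map_mul, map_pow, map_pow, map_pow, hs0, hs1, hs2', hyx,
        Polynomial.eval₂_monomial]
      obtain ⟨a, ha⟩ := Int.eq_ofNat_of_zero_le h3
      obtain ⟨b, hb⟩ := Int.eq_ofNat_of_zero_le h4
      rw [ha, hb] at h5 ⊢
      simp only [Int.toNat_natCast]
      have h6 : a + (N - 2) * b ≤ e := by exact_mod_cast h5
      obtain ⟨r, hr⟩ : ∃ r, e = r + a + (N - 2) * b := ⟨e - a - (N - 2) * b, by omega⟩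
      have h7 : e - a - (N - 2) * b = r := by omega
      rw [h7, hr]
      have h8 : ((HahnSeries.C : E →+* Ω).comp (algebraMap (Polynomial K) E))
          (Polynomial.monomial a (f m)) = algebraMap K Ω (f m) * (HahnSeries.C β ^ a : Ω) := by
        rw [← Polynomial.C_mul_X_pow_eq_monomial, RingHom.comp_apply, map_mul, map_pow, map_mul,
          map_pow, RatFunc.algebraMap_X, RatFunc.algebraMap_C, ← RatFunc.algebraMap_eq_C]
        rfl
      rw [h8, mul_pow, mul_pow, ← pow_mul]
      ring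
    exact (mul_eq_zero.1 h2).resolve_left (pow_ne_zero _ hx0)
  have hP0 : P = 0 := by
    have h1 : (P.map (algebraMap (Polynomial K) E)).eval₂ (HahnSeries.C : E →+* Ω) q = 0 := by
      rw [Polynomial.eval₂_map]; exact hPhom
    have h2 := trans_q (by omega) β⁻¹ ((1 + β ^ N) / β) (inv_ne_zero hβ0) _ h1
    exact (Polynomial.map_eq_zero_iff (RatFunc.algebraMap_injective K)).1 h2
  ext m
  rw [Finsupp.zero_apply]
  by_contra hne
  have hm : m ∈ f.support := Finsupp.mem_support_iff.2 hne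
  have h1 : (P.coeff m.2.toNat).coeff m.1.toNat = f m := by
    rw [hP, Finsupp.sum, Polynomial.finsetSum_coeff, Polynomial.finsetSum_coeff,
      sum_eq_single m]
    · simp
    · intro m' hm' hne'
      rw [Polynomial.coeff_monomial]
      split_ifs with h2
      · rw [Polynomial.coeff_monomial]
        split_ifs with h3
        · exfalso
          apply hne'
          obtain ⟨a1, a2, _⟩ := hsup m hm
          obtain ⟨b1, b2, _⟩ := hsup m' hm'
          ext
          · omega
          · omega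
        · rfl
      · simp
    · intro h; exact absurd hm h
  rw [hP0] at h1
  simp at h1
  exact hne h1.symm

end Pool.Agent.TH543.NagJ
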